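import Pool.Agent.Lib.MP_8465a2_an.N2.Cover

/-!
The covering theorem with multiplicities (MP_8465a2_an).
-/

namespace Pool.Agent.LinN2

open Filter Finset

/-- the covering theorem for polynomials, with the order of vanishing as a weight -/
def WCoverStmt (n : ℕ) : Prop :=
  ∃ (A : ℕ) (C : ℝ), 16 ≤ A ∧ 0 ≤ C ∧ ∀ (N : ℝ) (M : ℕ), ∀ᶠ J : ℕ in atTop,
    ∀ g : Cn n → Cn n, Nor g N →
    ∃ F : ℕ → Finset (Rn n × ℝ), (∀ m, ∀ q ∈ F m, 0 < q.2 ∧ q.2 ≤ rj A J) ∧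
      ∑ m ∈ range M, ((m : ℝ) + 1) * ∑ q ∈ F m, q.2 ^ (n - 2) ≤ C * N ^ 2 ∧
      ∀ (m : ℕ) (x : Rn n), ‖x‖ ≤ 1 →
        (∀ j ≤ 2 * J, ((m : ℝ) + 1) * Real.log A / 2 ≤ mj g A x j) →
        ∃ q ∈ F m, ‖x - q.1‖ ≤ q.2

namespace WCover

open Cover

variable {n : ℕ}

/-- the order near a pinched point is controlled by the order at that point -/
lemma mj_near {g : Cn n → Cn n} {A b i : ℕ} (hg : Differentiable ℂ g) (h0 : NZ g) (hA : 2 ≤ A)
    (hb : 2 ≤ b) {x q : Rn n} (hq : Pin g A b q i) (h : ‖x - q‖ ≤ rj A i / 2) :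
    mj g A x i ≤ 6 * mj g A q i := by
  obtain ⟨k, rfl⟩ : ∃ k, i = k + 2 := ⟨i - 2, by have := hq.1; omega⟩
  have hA' : (2 : ℝ) ≤ A := by exact_mod_cast hA
  have hA1 : 1 ≤ A := by omega
  have r1 : ∀ j, 2 * rj A (j + 1) ≤ rj A j := fun j => by
    have := rj_pos hA1 j
    rw [rj_succ, ← le_div_iff₀' two_pos]
    gcongr
  have p := fun j => rj_pos hA1 j
  have a1 : hj g A x (k + 1) ≤ hj g A q k := by
    refine Real.log_le_log (SS_pos hg h0 _ (p _)) (SS_mono hg.continuous ?_)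
    rw [norm_cx_sub]
    linarith [r1 k, r1 (k + 1), p (k + 1), p (k + 2)]
  have a2 : hj g A q (k + 3) ≤ hj g A x (k + 2) := by
    refine Real.log_le_log (SS_pos hg h0 _ (p _)) (SS_mono hg.continuous ?_)
    rw [norm_cx_sub, norm_sub_rev]
    linarith [r1 (k + 2)]
  have an := mj_anti hg h0 hA q
  have a3 : mj g A x (k + 2) ≤ mj g A x (k + 1) := mj_anti hg h0 hA x (by omega)
  have a4 : mj g A q k ≤ mj g A q (k + 2 - b) := an (by omega)
  have a5 : mj g A q (k + 1) ≤ mj g A q k := an (by omega)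
  have a6 : mj g A q (k + 2) ≤ mj g A q k := an (by omega)
  have a7 : mj g A q (k + 2 + b) ≤ mj g A q (k + 2) := an (by omega)
  have a8 : mj g A q (k + 2 + b) ≤ mj g A q (k + 2 - b) := an (by omega)
  have a9 := hq.2.2
  have hb' : (2 : ℝ) ≤ b := by exact_mod_cast hb
  have b1 : mj g A q (k + 2 - b) ≤ 2 * mj g A q (k + 2 + b) := by nlinarith
  have e1 : mj g A x (k + 1) = hj g A x (k + 1) - hj g A x (k + 2) := rfl
  have e2 : mj g A q k = hj g A q k - hj g A q (k + 1) := rfl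
  have e3 : mj g A q (k + 1) = hj g A q (k + 1) - hj g A q (k + 2) := rfl
  have e4 : mj g A q (k + 2) = hj g A q (k + 2) - hj g A q (k + 3) := rfl
  linarith

open Classical in
lemma sum_le_sq (M : ℕ) {t : ℝ} (ht : 0 ≤ t) :
    ∑ m ∈ range M, (if (m : ℝ) + 1 ≤ t then (m : ℝ) + 1 else 0) ≤ t ^ 2 := by
  rw [← sum_filter]
  have h1 : ((range M).filter fun m : ℕ => (m : ℝ) + 1 ≤ t) ⊆ range ⌊t⌋₊ := fun m hm => by
    have := (mem_filter.1 hm).2
    rw [mem_range, ← Nat.succ_le_iff, Nat.le_floor_iff ht]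
    exact_mod_cast this
  have h2 : ((((range M).filter fun m : ℕ => (m : ℝ) + 1 ≤ t).card : ℕ) : ℝ) ≤ t := by
    have := card_le_card h1
    rw [card_range] at this
    exact le_trans (by exact_mod_cast this) (Nat.floor_le ht)
  refine (sum_le_card_nsmul _ _ t fun m hm => (mem_filter.1 hm).2).trans ?_
  rw [nsmul_eq_mul, sq]
  gcongr

/-- cells meeting the full points of one scale, sorted by the order -/
lemma exists_cells {g : Cn n → Cn n} {A b : ℕ} {N C0 B0 r0 C : ℝ} (h5 : NetStmt) (hA : 2 ≤ A)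
    (hb : 2 ≤ b) (hg : Nor g N) (hPB : PB n C0 B0 0 r0 C) (M i : ℕ) (hi : rj A i ≤ r0)
    (hT : ∀ x, Full g A b x i → Tube g x (rj A i) (mu g A x i) (C0 * mu g A x i) B0) :
    ∃ W : ℕ → Finset (Fin n → ℤ),
      ∑ m ∈ range M, ((m : ℝ) + 1) * (rj A i ^ (n - 2) * (W m).card) ≤
        3 ^ n * (144 * (C * N ^ 2)) ∧
      ∀ (m : ℕ) (x : Rn n), ‖x‖ ≤ 1 → Full g A b x i →
        ((m : ℝ) + 1) * Real.log A / 2 ≤ mj g A x i → cell A i x ∈ W m := by
  classical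
  have hr := rj_pos (A := A) (by omega) i
  have hl : 0 < Real.log A := Real.log_pos (by exact_mod_cast hA)
  obtain ⟨F, hF1, hF2, hF3⟩ := h5.2 (Rn n) {x | ‖x‖ ≤ 1 ∧ Full g A b x i} 0 1 (rj A i / 2)
    (by positivity) (fun x hx => by simpa using hx.1)
  have hmu : ∀ x ∈ F, 1 / 2 ≤ mu g A x i := fun x hx => (hF1 x hx).2.1.half_le hg.diff hg.nz hA
  have hP := hPB g N hg (rj A i) hr hi F (fun x => mu g A x i)
    ⟨fun x hx => ⟨(hF1 x hx).1, hmu x hx, hT x (hF1 x hx).2⟩, hF2⟩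
  refine ⟨fun m => (F.filter fun q => (m : ℝ) + 1 ≤ 12 * mu g A q i).biUnion
    fun q => nb (cell A i q), ?_, fun m x hx hf hm => ?_⟩
  · have h4 : 0 ≤ rj A i ^ (n - 2) := by positivity
    have h6 : (0 : ℝ) ≤ 3 ^ n := by positivity
    have h2 : ∀ m : ℕ, ((m : ℝ) + 1) * (rj A i ^ (n - 2) *
        ((F.filter fun q => (m : ℝ) + 1 ≤ 12 * mu g A q i).biUnion
          fun q => nb (cell A i q)).card) ≤ 3 ^ n * rj A i ^ (n - 2) *
        ∑ q ∈ F, (if (m : ℝ) + 1 ≤ 12 * mu g A q i then (m : ℝ) + 1 else 0) := fun m => by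
      have a1 : ((F.filter fun q => (m : ℝ) + 1 ≤ 12 * mu g A q i).biUnion
          fun q => nb (cell A i q)).card ≤
          (F.filter fun q => (m : ℝ) + 1 ≤ 12 * mu g A q i).card * 3 ^ n :=
        card_biUnion_le_card_mul _ _ _ fun q _ => (card_nb _).le
      have a2 := (Nat.cast_le (α := ℝ)).2 a1
      rw [← sum_filter, sum_const, nsmul_eq_mul]
      push_cast at a2
      calc _ ≤ ((m : ℝ) + 1) * (rj A i ^ (n - 2) *
            ((F.filter fun q => (m : ℝ) + 1 ≤ 12 * mu g A q i).card * 3 ^ n)) := by gcongr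
        _ = _ := by ring
    refine (sum_le_sum fun m _ => h2 m).trans ?_
    rw [← mul_sum, sum_comm]
    have h3 : ∑ q ∈ F, ∑ m ∈ range M,
        (if (m : ℝ) + 1 ≤ 12 * mu g A q i then (m : ℝ) + 1 else 0) ≤
        ∑ q ∈ F, (12 * mu g A q i) ^ 2 :=
      sum_le_sum fun q hq => sum_le_sq M (by linarith [hmu q hq])
    calc _ ≤ 3 ^ n * rj A i ^ (n - 2) * ∑ q ∈ F, (12 * mu g A q i) ^ 2 := by gcongr
      _ = 3 ^ n * (144 * ∑ q ∈ F, rj A i ^ (n - 2) * mu g A q i ^ 2) := by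
        rw [mul_assoc]
        congr 1
        rw [mul_sum, mul_sum]
        exact sum_congr rfl fun q _ => by ring
      _ ≤ _ := by gcongr
  · obtain ⟨q, hq, hxq⟩ := hF3 x ⟨hx, hf⟩
    refine mem_biUnion.2 ⟨q, mem_filter.2 ⟨hq, ?_⟩, cell_mem_nb (by omega) hxq⟩
    have a1 := mj_near hg.diff hg.nz hA hb (hF1 q hq).2.1 hxq
    rw [mj_eq hA g q i] at a1
    refine le_of_mul_le_mul_right ?_ hl
    linarith

end WCover

open Cover in
theorem wcover {n : ℕ} (hn : 3 ≤ n) (h1 : StrStmt n) (h2 : YStmt n) (h3 : BootStmt n)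
    (h4 : NPStmt) (h5 : NetStmt) (h6 : TreeStmt) : WCoverStmt n := by
  classical
  obtain ⟨A0, hA0⟩ := h2
  obtain ⟨A, hA1, hA2⟩ : ∃ A, A0 ≤ A ∧ 100 * n ≤ A := ⟨max A0 (100 * n), le_max_left _ _,
    le_max_right _ _⟩
  have hY := hA0 A hA1
  obtain ⟨C0, C1, p, b0, hS⟩ := h1 A (by omega)
  obtain ⟨B0, r0, C, hB0, hr0, hC, hPB⟩ := h3 A C0 C1 p b0 hA2 hS hY
  obtain ⟨-, -, hb0, hS⟩ := hS
  obtain ⟨b, hb1, hb3, hb2⟩ : ∃ b : ℕ, b0 ≤ b ∧ 2 ≤ b ∧ C1 * B0 ^ p ≤ b :=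
    ⟨⌈C1 * B0 ^ p⌉₊ + b0 + 2, by omega, by omega, by
      push_cast
      linarith [Nat.le_ceil (C1 * B0 ^ p), Nat.cast_nonneg (α := ℝ) b0]⟩
  refine ⟨A, 11 ^ n + 3 * (3 ^ n * (144 * C)), by omega, by positivity, fun N M => ?_⟩
  have e1 : ∀ᶠ J : ℕ in atTop, 32 * (2 * (b : ℝ) + 4 * b ^ 2 * Real.log (4 * N)) ≤ J :=
    tendsto_natCast_atTop_atTop.eventually_ge_atTop _
  have e2 : ∀ᶠ J : ℕ in atTop, -Real.log r0 ≤ J :=
    tendsto_natCast_atTop_atTop.eventually_ge_atTop _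
  filter_upwards [e1, e2, eventually_ge_atTop 2, eventually_ge_atTop (M ^ 2)] with
    J hJ1 hJ2 hJ3 hJ4 g hg
  have hN := hg.one
  have hA' : 1 ≤ A := by omega
  have hl := one_le_log (A := A) (by omega)
  have hrJ : rj A J ≤ r0 := (rj_le_exp (by omega) J).trans (by
    rw [← Real.exp_log hr0, Real.exp_le_exp]; linarith)
  obtain ⟨FY, hFY1, hFY2⟩ := hY (fun x i => Pin g A b x i)
    (fun x i => Pin g A b x i ∧ ¬ Full g A b x i)
    (fun x i hp => ((hS g hg.adm hg.nz b x i).2 hb1 hp).1)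
    (fun x i hp => by
      obtain ⟨W, hW1, hW2⟩ := ((hS g hg.adm hg.nz b x i).2 hb1 hp.1).2 hp.2
      exact ⟨W, hW1, fun x' hx' => hW2 x' hx'.1⟩) J
  have hW : ∀ i, ∃ W : ℕ → Finset (Fin n → ℤ), J ≤ i →
      ∑ m ∈ range M, ((m : ℝ) + 1) * (rj A i ^ (n - 2) * (W m).card) ≤
        3 ^ n * (144 * (C * N ^ 2)) ∧
      ∀ (m : ℕ) (x : Rn n), ‖x‖ ≤ 1 → Full g A b x i →
        ((m : ℝ) + 1) * Real.log A / 2 ≤ mj g A x i → cell A i x ∈ W m := fun i => by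
    by_cases hi : J ≤ i
    · obtain ⟨W, hW⟩ := WCover.exists_cells (b := b) h5 (by omega) hb3 hg hPB M i
        ((rj_anti hA' hi).trans hrJ) fun x hf => (hS g hg.adm hg.nz b x i).1 B0 hB0 hb2 hf
      exact ⟨W, fun _ => hW⟩
    · exact ⟨fun _ => ∅, fun h => absurd h hi⟩
  choose W hW using hW
  have hW' := fun m => h6 (Rn n) (Fin n → ℤ) (cell A) (Ico J (2 * J)) (fun i => W i m)
    (fun i => rj A i ^ (n - 2)) (J / 2) (by omega) (fun i j x x' hij h => cell_nested hA' hij h)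
    (fun i => pow_nonneg (rj_pos hA' i).le _)
  choose W' hW1 hW2 using hW'
  have hK : (0 : ℝ) ≤ 3 ^ n * (144 * (C * N ^ 2)) := by positivity
  have s1 : ∑ m ∈ range M, ((m : ℝ) + 1) * ∑ i ∈ Ico J (2 * J), rj A i ^ (n - 2) * (W i m).card ≤
      J * (3 ^ n * (144 * (C * N ^ 2))) := by
    simp_rw [mul_sum]
    rw [sum_comm]
    refine (sum_le_card_nsmul _ _ _ fun i hi => (hW i (mem_Ico.1 hi).1).1).trans ?_
    rw [Nat.card_Ico, nsmul_eq_mul, show 2 * J - J = J by omega]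
  have s2 : ∑ m ∈ range M, ((m : ℝ) + 1) *
      ∑ i ∈ Ico J (2 * J), rj A i ^ (n - 2) * (W' m i).card ≤
      3 * (3 ^ n * (144 * (C * N ^ 2))) := by
    have t1 : (0 : ℝ) < ((J / 2 : ℕ) : ℝ) := by exact_mod_cast (by omega : 0 < J / 2)
    have t2 : (J : ℝ) ≤ 3 * ((J / 2 : ℕ) : ℝ) := by exact_mod_cast (by omega : J ≤ 3 * (J / 2))
    refine le_of_mul_le_mul_left (le_trans ?_ (s1.trans (by nlinarith))) t1
    rw [mul_sum]
    refine sum_le_sum fun m _ => ?_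
    rw [mul_left_comm]
    exact mul_le_mul_of_nonneg_left (hW2 m) (by positivity)
  obtain ⟨F0, hF1, hF2, hF3⟩ := sum_image_le FY id (rj_pos hA' (2 * J)).le (n - 2)
  have hG := fun m i => sum_image_le (W' m i) (corner A i) (rj_pos hA' i).le (n - 2)
  choose G hG1 hG2 hG3 using hG
  refine ⟨fun m => F0 ∪ (Ico J (2 * J)).biUnion (G m), fun m q hq => ?_, ?_,
    fun m x hx ha => ?_⟩
  · rcases mem_union.1 hq with h | h
    · rw [hF1 q h]
      exact ⟨rj_pos hA' _, rj_anti hA' (by omega)⟩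
    · obtain ⟨i, hi, h⟩ := mem_biUnion.1 h
      rw [hG1 m i q h]
      exact ⟨rj_pos hA' _, rj_anti hA' (mem_Ico.1 hi).1⟩
  · have t0 : ∀ m, ∑ q ∈ F0 ∪ (Ico J (2 * J)).biUnion (G m), q.2 ^ (n - 2) ≤
        11 ^ n * Real.exp (-(J : ℝ)) +
          ∑ i ∈ Ico J (2 * J), rj A i ^ (n - 2) * (W' m i).card := fun m => by
      refine (sum_union_le' _ _ _ fun q hq => by
        rw [hF1 q hq]; exact pow_nonneg (rj_pos hA' _).le _).trans ?_
      have t1 := (sum_biUnion_le' (Ico J (2 * J)) (G m) (fun q => q.2 ^ (n - 2)) fun i q hq => by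
        rw [hG1 m i q hq]; exact pow_nonneg (rj_pos hA' _).le _).trans
        (sum_le_sum fun i _ => hG2 m i)
      nlinarith
    have t2 : ∑ m ∈ range M, ((m : ℝ) + 1) * (11 ^ n * Real.exp (-(J : ℝ))) ≤ 11 ^ n * N ^ 2 := by
      rw [← sum_mul]
      have u1 : ∑ m ∈ range M, ((m : ℝ) + 1) ≤ (M : ℝ) ^ 2 := by
        refine (sum_le_card_nsmul _ _ (M : ℝ) fun m hm => ?_).trans ?_
        · exact_mod_cast mem_range.1 hm
        · rw [card_range, nsmul_eq_mul, sq]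
      have u2 : (M : ℝ) ^ 2 ≤ J := by exact_mod_cast hJ4
      have u3 : (J : ℝ) * Real.exp (-(J : ℝ)) ≤ 1 := by
        rw [Real.exp_neg, ← div_eq_mul_inv, div_le_one (Real.exp_pos _)]
        linarith [Real.add_one_le_exp (J : ℝ)]
      calc _ ≤ (J : ℝ) * (11 ^ n * Real.exp (-(J : ℝ))) := by gcongr; exact u1.trans u2
        _ = 11 ^ n * (J * Real.exp (-(J : ℝ))) := by ring
        _ ≤ _ := by gcongr; nlinarith
    refine (sum_le_sum fun m _ => mul_le_mul_of_nonneg_left (t0 m) (by positivity)).trans ?_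
    simp_rw [mul_add]
    rw [sum_add_distrib]
    nlinarith
  · have ha' : ∀ j ≤ 2 * J, Real.log A / 2 ≤ mj g A x j := fun j hj =>
      le_trans (by nlinarith [Nat.cast_nonneg (α := ℝ) m]) (ha j hj)
    by_cases hxY : x ∈ Yset (fun x i => Pin g A b x i)
      (fun x i => Pin g A b x i ∧ ¬ Full g A b x i) J
    · obtain ⟨c, hc, h⟩ := hFY1 x hxY
      exact ⟨(c, rj A (2 * J)), mem_union_left _ (hF3 c hc), h⟩
    · have t1 := many_full h4 (by omega) hg (by omega) hJ1 hx ha' hxY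
      obtain ⟨i, hi, h⟩ := hW1 m x (t1.trans (card_le_card fun i hi => by
        simp only [mem_filter] at hi ⊢
        exact ⟨hi.1, (hW i (mem_Ico.1 hi.1).1).2 m x hx hi.2 (ha i (mem_Ico.1 hi.1).2.le)⟩))
      exact ⟨(corner A i (cell A i x), rj A i),
        mem_union_right _ (mem_biUnion.2 ⟨i, hi, hG3 m i _ h⟩), near_corner hA' i x⟩

end Pool.Agent.LinN2
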