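import Pool.Agent.Lib.MP_8465a2_an.W.Local

/-!
From the bound with multiplicities on a cube to the unit ball (MP_8465a2_an).
-/

namespace Pool.Agent.LinN2

open Finset MeasureTheory Pool.Agent.LinCrit Pool.Agent.Alesker Metric Filter Topology
open scoped ENNReal ContDiff

namespace WFinal

variable {n : ℕ}

lemma WS_mono {X : Type} [EMetricSpace X] [MeasurableSpace X] [BorelSpace X] (d : ℝ)
    {S S' : ℕ → Set X} (h : ∀ m, S m ⊆ S' m) : WS d S ≤ WS d S' :=
  ENNReal.tsum_le_tsum fun m => mul_le_mul' le_rfl (measure_mono (h m))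

lemma WS_biUnion {X ι : Type} [EMetricSpace X] [MeasurableSpace X] [BorelSpace X] (d : ℝ)
    (t : Finset ι) (S : ι → ℕ → Set X) :
    WS d (fun m => ⋃ c ∈ t, S c m) ≤ ∑ c ∈ t, WS d (S c) := by
  unfold WS
  rw [← Summable.tsum_finsetSum fun _ _ => ENNReal.summable]
  refine ENNReal.tsum_le_tsum fun m => ?_
  rw [← mul_sum]
  exact mul_le_mul' le_rfl (measure_biUnion_finset_le _ _)

/-- the bound on a convex compact set -/
lemma core (h : WLocalStmt n) {S : Set (Fin n → ℝ)} (hS : Convex ℝ S) (hc : IsCompact S) :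
    ∃ C : ℝ, 0 ≤ C ∧ ∀ (v : (Fin n → ℝ) → ℝ) (i : Fin n) (L : ℝ), ∀ p ∈ S,
      (∀ c ∈ S, Har (fun z => v z + -v c) c (3 * R0 n) 1) → 2 ≤ L → Real.exp (-L) ≤ |pd i v p| →
      WS ((n : ℝ) - 2) (fun m => {x ∈ S | Van (m + 1) v x}) ≤ ENNReal.ofReal (C * L ^ 2) := by
  obtain ⟨C, hC, h1⟩ := h
  obtain ⟨B, hB, h2⟩ := chain hS hc.isBounded
  obtain ⟨t, htS, ht, hcov⟩ := finite_cover_balls_of_compact hc one_half_pos
  lift t to Finset (Fin n → ℝ) using ht
  have hR := R0_pos n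
  refine ⟨#t * (C * B ^ 2), by positivity, fun v i L p hp hv hL h0 => ?_⟩
  have hs : Sm v := by simpa using (hv p hp).sm.add (contDiff_const (c := v p))
  have e1 : ∀ a l, pd l (fun z => v z + a) = pd l v := fun a l => funext fun z => by
    rw [pd_add hs contDiff_const, pd_const, add_zero]
  have h3 : ∀ c ∈ t, WS ((n : ℝ) - 2) (fun m => (fun z => c + z) '' {x : Fin n → ℝ | ‖x‖ ≤ 1 / 2 ∧
      Van (m + 1) (fun z => v (c + z) + -v c) x}) ≤
      ENNReal.ofReal (C * B ^ 2 * L ^ 2) := fun c hc => by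
    unfold WS
    simp_rw [(isometry_add_left c).hausdorffMeasure_image (Or.inr (add_left_surjective c))]
    obtain ⟨y, hy, h4⟩ := h2 (pd i v) L p hp c (htS hc) (fun c hc => by
      rw [← e1 (-v c)]
      exact Har.pd ((hv c hc).mono (by simp; linarith)) i) (by linarith) h0
    refine (h1 _ (y - c) i (B * L) (hv c (htS hc)).trans hy (by nlinarith) ?_).trans
      (ENNReal.ofReal_le_ofReal (le_of_eq (by ring)))
    rwa [pd_trans (hv c (htS hc)).sm, e1, add_sub_cancel]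
  refine (WS_mono _ fun m x hx => ?_).trans
    ((WS_biUnion _ t _).trans ((sum_le_card_nsmul _ _ _ h3).trans (le_of_eq ?_)))
  · obtain ⟨c, hc, h4⟩ := Set.mem_iUnion₂.mp (hcov hx.1)
    refine Set.mem_iUnion₂.mpr ⟨c, hc, x - c, ⟨(mem_ball_iff_norm.mp h4).le, fun l h hh => ?_⟩,
      add_sub_cancel c x⟩
    rw [pd_trans (hv c (htS hc)).sm, e1, ← add_assoc, add_sub_cancel]
    exact hx.2 l h hh
  · rw [mul_assoc (#t : ℝ), ENNReal.ofReal_mul (Nat.cast_nonneg _), ENNReal.ofReal_natCast,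
      nsmul_eq_mul]

lemma deriv_succ {E F : Type} [NormedAddCommGroup E] [NormedSpace ℝ E] [NormedAddCommGroup F]
    [NormedSpace ℝ F] {f : E → F} {x : E} {k : ℕ} (h : iteratedFDeriv ℝ (k + 1) f x = 0) :
    iteratedFDeriv ℝ k (fderiv ℝ f) x = 0 := by
  rw [iteratedFDeriv_succ_eq_comp_right, Function.comp_apply,
    LinearIsometryEquiv.map_eq_zero_iff] at h
  exact h

lemma TL_zero (k : ℕ) {f : (Fin n → ℝ) → ℝ} (hf : Sm f) {x : Fin n → ℝ}
    (h0 : iteratedFDeriv ℝ k f x = 0) (h : Fin n → ℝ) : TL k f x h = 0 := by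
  induction k generalizing f with
  | zero =>
    have := congrArg (fun φ => φ 0) h0
    simpa [TL] using this
  | succ k ih =>
    refine sum_eq_zero fun i _ => mul_eq_zero_of_right _ (ih (hf.pd i) ?_)
    have h1 := (ContinuousLinearMap.apply ℝ ℝ (Pi.single i 1 : Fin n → ℝ)).iteratedFDeriv_comp_left
      (f := fderiv ℝ f) (x := x) (contDiff_infty_iff_fderiv.mp hf).2.contDiffAt (i := k)
      (by exact_mod_cast le_top)
    rw [deriv_succ h0] at h1
    refine Eq.trans h1 ?_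
    ext
    simp

/-- vanishing derivatives give the growth bound -/
lemma van {u : EuclideanSpace ℝ (Fin n) → ℝ} {v : (Fin n → ℝ) → ℝ}
    {T : (Fin n → ℝ) →L[ℝ] EuclideanSpace ℝ (Fin n)} (hT : Function.Surjective T) {c : ℝ}
    (hc : c ≠ 0) {q : Fin n → ℝ} (hs : Sm v) (hv : Har (fun z => v z + -v q) q (3 * R0 n) 1)
    (he : ∀ z, ‖z - q‖ ≤ 3 * R0 n →
      ∀ l, pd l v z = c * fderiv ℝ u (T z) (EuclideanSpace.single l 1)) {m : ℕ}
    (h0 : ∀ k, 1 ≤ k → k ≤ m + 1 → iteratedFDeriv ℝ k u (T q) = 0) : Van (m + 1) v q := by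
  have hR := R0_pos n
  intro l h hh
  have e1 : pd l (fun z => v z + -v q) = pd l v := funext fun z => by
    rw [pd_add hs contDiff_const, pd_const, add_zero]
  have h1 : Har (pd l v) q (R0 n) 1 :=
    e1 ▸ Har.pd (hv.mono (y := q) (S := R0 n + R0 n) (by simp; linarith)) l
  have hinj : Function.Injective T :=
    (LinearMap.injective_iff_surjective_of_finrank_eq_finrank (f := T.toLinearMap)
      (by simp)).2 hT
  let Te : (Fin n → ℝ) ≃L[ℝ] EuclideanSpace ℝ (Fin n) :=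
    (LinearEquiv.ofBijective T.toLinearMap ⟨hinj, hT⟩).toContinuousLinearEquiv
  have hb : ∀ z ∈ ball q 1, ‖z - q‖ ≤ 3 * R0 n := fun z hz => by
    linarith [mem_ball_iff_norm.1 hz]
  have h2 : ContDiffOn ℝ ∞ (fderiv ℝ u ∘ T) (ball q 1) := by
    refine contDiffOn_clm_apply.2 fun y => ?_
    refine (ContDiff.contDiffOn (f := fun z => ∑ l, y l * (c⁻¹ * pd l v z))
      (ContDiff.sum fun l _ => contDiff_const.mul (contDiff_const.mul (hs.pd l)))).congr
      fun z hz => ?_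
    rw [Function.comp_apply, clm_eq_sum]
    exact sum_congr rfl fun l _ => by rw [he z (hb z hz), inv_mul_cancel_left₀ hc]
  have h3 : ∀ k ≤ m, iteratedFDeriv ℝ k (pd l v) q = 0 := fun k hk => by
    have a1 := deriv_succ (h0 (k + 1) (by omega) (by omega))
    have a2 := Te.iteratedFDerivWithin_comp_right (fderiv ℝ u) uniqueDiffOn_univ
      (x := q) (Set.mem_univ _) k
    rw [Set.preimage_univ, iteratedFDerivWithin_univ, iteratedFDerivWithin_univ] at a2
    have a3 : iteratedFDeriv ℝ k (fderiv ℝ u ∘ T) q = 0 := by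
      refine Eq.trans a2 ?_
      rw [show Te q = T q from rfl, a1]
      ext
      simp
    have a4 := (c • ContinuousLinearMap.apply ℝ ℝ
      (EuclideanSpace.single l (1 : ℝ))).iteratedFDeriv_comp_left
      (h2.contDiffAt (ball_mem_nhds q one_pos)) (i := k) (by exact_mod_cast le_top)
    have a5 : pd l v =ᶠ[𝓝 q] (c • ContinuousLinearMap.apply ℝ ℝ
        (EuclideanSpace.single l (1 : ℝ))) ∘ (fderiv ℝ u ∘ T) := by
      filter_upwards [ball_mem_nhds q one_pos] with z hz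
      rw [he z (hb z hz)]
      rfl
    rw [(a5.iteratedFDeriv ℝ k).eq_of_nhds, a4, a3]
    ext
    simp
  have h4 := taylor_le m h1 (h := h) (by linarith)
  rw [sum_eq_zero fun k hk => by
    rw [co, TL_zero k (hs.pd l) (h3 k (by simpa [Nat.lt_succ_iff] using hk)), zero_div],
    sub_zero, mul_one] at h4
  exact h4.trans (by gcongr; linarith [norm_nonneg h])

/-- the estimate for large frequency -/
lemma global (hn : 3 ≤ n) (h : WLocalStmt n) : ∃ C : ℝ, 0 ≤ C ∧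
    ∀ (u : EuclideanSpace ℝ (Fin n) → ℝ) (M N : ℝ), ContDiffOn ℝ 2 u (ball 0 1) →
    (∀ x ∈ ball (0 : EuclideanSpace ℝ (Fin n)) 1,
      ∑ i, iteratedFDeriv ℝ 2 u x (fun _ => EuclideanSpace.single i (1 : ℝ)) = 0) → 0 < M →
    (∀ r < M, ∃ x ∈ ball (0 : EuclideanSpace ℝ (Fin n)) (1 / 2), r < ‖fderiv ℝ u x‖) →
    (∀ x ∈ ball (0 : EuclideanSpace ℝ (Fin n)) 1, ‖fderiv ℝ u x‖ ≤ Real.exp N * M) → 2 ≤ N →
    WS ((n : ℝ) - 2) (fun m => {x | ∀ k, 1 ≤ k → k ≤ m + 1 → iteratedFDeriv ℝ k u x = 0} ∩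
      ball 0 (1 / 2)) ≤ ENNReal.ofReal (C * N ^ 2) := by
  obtain ⟨η, T, hη, hη1, hT, hc, h1⟩ := transfer n
  have hS := (convex_closedBall (0 : EuclideanSpace ℝ (Fin n)) (1 / 2)).linear_preimage
    T.toLinearMap
  obtain ⟨C, hC, h2⟩ := core h hS hc
  have hn' : (3 : ℝ) ≤ n := by exact_mod_cast hn
  have hR := R0_pos n
  obtain ⟨B, hB⟩ : ∃ B, B = 1 + Real.log (2 * n / η) := ⟨_, rfl⟩
  have hB1 : 1 ≤ B := by
    have := Real.log_nonneg (show 1 ≤ 2 * n / η by rw [le_div_iff₀ hη]; linarith)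
    linarith
  refine ⟨(‖T‖₊ : ℝ) ^ (n - 2) * (C * B ^ 2), by positivity, fun u M N hu h0 hM hs hb hN => ?_⟩
  have hK : 0 < Real.exp N * M := by positivity
  obtain ⟨v, hv, h4⟩ := h1 u _ hu h0 hK hb
  have hc0 : ∀ c : Fin n → ℝ, ‖c - c‖ ≤ 3 * R0 n := fun c => by simp; linarith
  obtain ⟨x, hx, h5⟩ := hs (M / 2) (by linarith)
  obtain ⟨p, rfl⟩ := hT x
  obtain ⟨e, he, h6⟩ := exists_dir h5
  obtain ⟨i, hi⟩ : ∃ i, M / (2 * n) ≤ |fderiv ℝ u (T p) (EuclideanSpace.single i 1)| := by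
    by_contra h
    push Not at h
    have := sum_le_sum fun l (_ : l ∈ univ) => (le_abs_self _).trans ((abs_mul _ _).trans_le
      (mul_le_mul ((PiLp.norm_apply_le e l).trans he) (h l).le (abs_nonneg _) zero_le_one))
    rw [← clm_eq_sum, sum_const, card_univ, Fintype.card_fin, nsmul_eq_mul,
      show n * (1 * (M / (2 * n))) = M / 2 by field_simp] at this
    linarith
  have hp := ball_subset_closedBall hx
  have h7 := h2 v i (B * N) p hp (fun c hc => (h4 c hc).1) (by nlinarith) (by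
    rw [((h4 p hp).2 p (hc0 p)).2, abs_mul, abs_mul, abs_of_pos hη, abs_of_pos (inv_pos.mpr hK)]
    calc _ ≤ Real.exp (-(N + Real.log (2 * n / η))) := Real.exp_le_exp.mpr (by nlinarith)
      _ = (Real.exp N * M)⁻¹ * (η * (M / (2 * n))) := by
        rw [Real.exp_neg, Real.exp_add, Real.exp_log (by positivity)]
        field_simp
      _ ≤ _ := by gcongr)
  refine (WS_mono (S' := fun m => T '' {x ∈ T.toLinearMap ⁻¹' closedBall 0 (1 / 2) |
    Van (m + 1) v x}) _ fun m x hx => ?_).trans ?_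
  · obtain ⟨q, rfl⟩ := hT x
    have hq := ball_subset_closedBall hx.2
    exact ⟨q, ⟨hq, van hT (c := (Real.exp N * M)⁻¹ * η) (by positivity) hv (h4 q hq).1
      (fun z hz l => by rw [((h4 q hq).2 z hz).2, mul_assoc]) hx.1⟩, rfl⟩
  · refine le_trans ?_ ((mul_le_mul' (le_refl ((‖T‖₊ : ℝ≥0∞) ^ ((n : ℝ) - 2))) h7).trans
      (le_of_eq ?_))
    · unfold WS
      rw [← ENNReal.tsum_mul_left]
      refine ENNReal.tsum_le_tsum fun m => ?_
      rw [mul_left_comm]
      exact mul_le_mul' le_rfl (T.lipschitz.hausdorffMeasure_image_le (by linarith) _)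
    · rw [show (n : ℝ) - 2 = (n - 2 : ℕ) by rw [Nat.cast_sub (by omega)]; simp,
        ENNReal.rpow_natCast, ← ENNReal.ofReal_coe_nnreal, ← ENNReal.ofReal_pow (by positivity),
        ← ENNReal.ofReal_mul (by positivity), mul_assoc _ (C * _), mul_assoc C, ← mul_pow]

end WFinal

/-- the bound with multiplicities on the unit ball -/
theorem wfinal {n : ℕ} (hn : 3 ≤ n) (h : WLocalStmt n) :
    ∃ C : ℝ, 0 ≤ C ∧ ∀ (u : EuclideanSpace ℝ (Fin n) → ℝ) (M N : ℝ),
      ContDiffOn ℝ 2 u (ball 0 1) →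
      (∀ x ∈ ball (0 : EuclideanSpace ℝ (Fin n)) 1,
        ∑ i, iteratedFDeriv ℝ 2 u x (fun _ => EuclideanSpace.single i (1 : ℝ)) = 0) → 0 < M →
      (∀ r < M, ∃ x ∈ ball (0 : EuclideanSpace ℝ (Fin n)) (1 / 2), r < ‖fderiv ℝ u x‖) →
      (∀ x ∈ ball (0 : EuclideanSpace ℝ (Fin n)) 1, ‖fderiv ℝ u x‖ ≤ Real.exp N * M) →
      WS ((n : ℝ) - 2) (fun m => {x | ∀ k, 1 ≤ k → k ≤ m + 1 → iteratedFDeriv ℝ k u x = 0} ∩
        ball 0 (1 / 2)) ≤ ENNReal.ofReal (C * N ^ 2) := by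
  obtain ⟨C', δ, -, hδ, h'⟩ := Pool.Agent.LinCrit.global hn
  obtain ⟨C, hC, h⟩ := WFinal.global hn h
  refine ⟨C * (1 + 2 / δ) ^ 2, by positivity, fun u M N hu h0 hM hs' hb => ?_⟩
  rcases le_total N δ with hN | hN
  · have h1 := (h' u M δ hu h0 hM hs' fun z hz => (hb z hz).trans (by gcongr)).2 rfl
    refine (WFinal.WS_mono (S' := fun _ => ∅) _ fun m x hx => ?_).trans (by simp [WS])
    rw [← h1]
    have h2 := WFinal.deriv_succ (hx.1 1 le_rfl (by omega))
    have h3 := congrArg (fun φ => φ 0) h2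
    exact ⟨by simpa using h3, hx.2⟩
  · refine (h u M (max N 2) hu h0 hM hs' (fun z hz => (hb z hz).trans
      (by gcongr; exact le_max_left _ _)) (le_max_right _ _)).trans (ENNReal.ofReal_le_ofReal ?_)
    have h2 : 0 < N := hδ.trans_le hN
    have h3 : 2 ≤ 2 / δ * N := by rw [div_mul_eq_mul_div, le_div_iff₀ hδ]; linarith
    have h4 : max N 2 ≤ (1 + 2 / δ) * N := max_le (by linarith) (by linarith)
    calc _ ≤ C * ((1 + 2 / δ) * N) ^ 2 := by gcongr
      _ = _ := by ring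

end Pool.Agent.LinN2
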