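import Pool.Agent.Lib.MP_8465a2_an.W.Cover
import Pool.Agent.Lib.MP_8465a2_an.N2.Stmts2

/-!
The bound with multiplicities on a cube (MP_8465a2_an).
-/

namespace Pool.Agent.LinN2

open MeasureTheory Metric Set Filter Topology Pool.Agent.LinCrit Pool.Agent.Alesker
open scoped ENNReal

/-- the gradient of `w` vanishes at `x` to order `m`, in the form of a growth bound -/
def Van {n : ℕ} (m : ℕ) (w : Rn n → ℝ) (x : Rn n) : Prop :=
  ∀ l h, ‖h‖ ≤ 1 → |pd l w (x + h)| ≤ ‖h‖ ^ m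

/-- weighted sum of the measures of a sequence of sets -/
noncomputable def WS {X : Type} [EMetricSpace X] [MeasurableSpace X] [BorelSpace X] (d : ℝ)
    (S : ℕ → Set X) : ℝ≥0∞ := ∑' m : ℕ, ((m : ℝ≥0∞) + 1) * μH[d] (S m)

/-- the bound with multiplicities on a cube -/
def WLocalStmt (n : ℕ) : Prop :=
  ∃ C : ℝ, 0 ≤ C ∧ ∀ (w : Rn n → ℝ) (y : Rn n) (i : Fin n) (L : ℝ), Har w 0 (3 * R0 n) 1 →
    ‖y‖ ≤ 1 → 2 ≤ L → Real.exp (-L) ≤ |pd i w y| →
    WS ((n : ℝ) - 2) (fun m => {x : Rn n | ‖x‖ ≤ 1 / 2 ∧ Van (m + 1) w x}) ≤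
      ENNReal.ofReal (C * L ^ 2)

namespace WLocal

variable {n : ℕ}

lemma arith {a N J m k μ H H' H4 l : ℝ} (ha : 1 ≤ a) (hN : 1 ≤ N) (hJ : 0 ≤ J) (hm : 0 ≤ m)
    (hk0 : 0 < k) (hk : 2 * (9 * N + 2) + 4 * N * J ≤ k) (hl : l < 0.6931471808)
    (b4 : H4 - H' ≤ 4 * N) (b6 : 2 * H' ≤ l + (m + 1) * (l + -((J + k) * a)) + H4)
    (b7 : -(5 * N) + 2 * N * -(J * a) ≤ H) (b8 : H - H' ≤ μ * (-(J * a) - -((J + k) * a))) :
    (m + 1) * a / 2 ≤ μ * a := by
  have d0 : 0 ≤ J * a := by positivity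
  have d1 : (2 * (9 * N + 2) + 4 * N * J) * a ≤ k * a := by gcongr
  have d2 : (9 * N + 2) * 1 ≤ (9 * N + 2) * a := by gcongr
  have d3 : 0 ≤ N * (J * a) := by positivity
  have d5 : 0 ≤ J * a + k * a / 2 - l := by linarith
  have d4 : 0 ≤ m * (J * a + k * a / 2 - l) := by positivity
  refine le_of_mul_le_mul_left ?_ hk0
  linarith

/-- a good approximation of the gradient at a given depth sees the order of vanishing -/
lemma approx (h2 : TaylorStmt n) {A : ℕ} (hA : 16 ≤ A) {w : Rn n → ℝ} {y : Rn n} {i : Fin n}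
    {L : ℝ} (hw : Har w 0 (3 * R0 n) 1) (hy : ‖y‖ ≤ 1) (hL : 2 ≤ L)
    (hi : Real.exp (-L) ≤ |pd i w y|) (J M : ℕ) :
    ∃ g : Cn n → Cn n, Nor g (L + 3) ∧ ∀ x : Rn n, ‖x‖ ≤ 1 / 2 → ∀ m < M, Van (m + 1) w x →
      ∀ j ≤ J, ((m : ℝ) + 1) * Real.log A / 2 ≤ mj g A x j := by
  obtain ⟨N, hN0⟩ : ∃ N, N = L + 3 := ⟨_, rfl⟩
  obtain ⟨k, hk⟩ := exists_nat_ge (2 * (9 * N + 2) + 4 * N * J)
  have hk1 : 1 ≤ k := by
    have : (1 : ℝ) ≤ k := by nlinarith [Nat.cast_nonneg (α := ℝ) J]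
    exact_mod_cast this
  have hA1 : 1 ≤ A := by omega
  have hl := one_le_log (A := A) (by omega)
  set ρ := rj A (J + k) with hρ
  have hρ0 : 0 < ρ := rj_pos hA1 _
  have hρ1 : ρ ≤ 1 / 16 := by
    refine (rj_anti hA1 (show 1 ≤ J + k by omega)).trans ?_
    have : (16 : ℝ) ≤ A := by exact_mod_cast hA
    rw [rj, pow_one, inv_eq_one_div]
    gcongr
  have hL0 := Real.exp_pos (-L)
  obtain ⟨g, g1, g2, g3⟩ := h2 w (min (Real.exp (-L) / 20) (ρ ^ M)) hw (by positivity)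
  have hN : Nor g N := by
    refine ⟨g1, by linarith, g2, ?_⟩
    have a1 : ‖g (cx y)‖ ≤ SS g 0 1 := le_SS g1.continuous (by simpa using hy)
    have a2 := norm_le_pi_norm (g (cx y)) i
    have a3 := (g3 y hy i).trans (min_le_left _ _)
    have a4 := norm_sub_norm_le (((pd i w y / 5 : ℝ) : ℂ)) (g (cx y) i)
    rw [norm_sub_rev, Complex.norm_real, Real.norm_eq_abs, abs_div,
      abs_of_pos (show (0 : ℝ) < 5 by norm_num)] at a4
    have a5 : Real.exp (-(L + 3)) * 8 ≤ Real.exp (-L) := by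
      have b1 : (2 : ℝ) ≤ Real.exp 1 := by linarith [Real.add_one_le_exp (1 : ℝ)]
      have b2 : (8 : ℝ) ≤ Real.exp 3 := by
        rw [show (3 : ℝ) = (3 : ℕ) * 1 by norm_num, Real.exp_nat_mul]
        calc (8 : ℝ) = 2 ^ 3 := by norm_num
          _ ≤ _ := by gcongr
      calc _ ≤ Real.exp (-(L + 3)) * Real.exp 3 := by gcongr
        _ = _ := by rw [← Real.exp_add]; ring_nf
    rw [hN0]
    linarith
  refine ⟨g, hN0 ▸ hN, fun x hx m hm hv j hjJ => ?_⟩
  have hN1 := hN.one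
  obtain ⟨x1, b1, b2⟩ := exists_real hN.diff x hρ0.le
  have b3 : ‖g (cx x1)‖ ≤ 2 * (2 * ρ) ^ (m + 1) := by
    refine (pi_norm_le_iff_of_nonneg (by positivity)).2 fun l => ?_
    have c1 := (g3 x1 (by linarith [norm_le_norm_add_norm_sub' x1 x]) l).trans (min_le_right _ _)
    have c2 := hv l (x1 - x) (by linarith)
    rw [add_sub_cancel] at c2
    have c3 : ‖x1 - x‖ ^ (m + 1) ≤ (2 * ρ) ^ (m + 1) := by gcongr
    have c4 : ρ ^ M ≤ (2 * ρ) ^ (m + 1) :=
      (pow_le_pow_of_le_one hρ0.le (by linarith) hm).trans (by gcongr; linarith)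
    have c5 := norm_sub_norm_le (g (cx x1) l) (((pd l w x1 / 5 : ℝ) : ℂ))
    rw [Complex.norm_real, Real.norm_eq_abs, abs_div,
      abs_of_pos (show (0 : ℝ) < 5 by norm_num)] at c5
    linarith [abs_nonneg (pd l w x1)]
  have p1 := SS_pos hN.diff hN.nz (cx x) hρ0
  have p4 := SS_pos hN.diff hN.nz (cx x) (show 0 < 4 * ρ by positivity)
  have b4 := hN.slope (x := x) (by linarith) hρ0 (show ρ ≤ 4 * ρ by linarith) (by linarith)
  have l2 := Real.log_two_lt_d9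
  have l2' := Real.log_two_gt_d9
  have b5 : Real.log (4 * ρ) - Real.log ρ ≤ 2 := by
    rw [Real.log_mul (by norm_num) hρ0.ne', show (4 : ℝ) = 2 ^ 2 by norm_num, Real.log_pow]
    push_cast
    linarith
  have b6 : 2 * Real.log (SS g (cx x) ρ) ≤ Real.log 2 + ((m : ℝ) + 1) * (Real.log 2 + Real.log ρ) +
      Real.log (SS g (cx x) (4 * ρ)) := by
    have c1 := Real.log_le_log (by positivity) (b2.trans (mul_le_mul_of_nonneg_right b3 p4.le))
    rw [Real.log_pow, Real.log_mul (by positivity) p4.ne', Real.log_mul (by norm_num)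
      (by positivity), Real.log_pow, Real.log_mul (by norm_num) hρ0.ne'] at c1
    push_cast at c1
    linarith
  have b7 := hN.log_ge (x := x) (by linarith) (rj_pos hA1 J) ((rj_le_one hA1 _).trans (by norm_num))
  have b8 := HH_le_mu hN.diff hN.nz (A := A) (by omega) x J (a := -((J + k : ℕ) * Real.log A))
    (b := -(J * Real.log A)) (by push_cast; nlinarith [Nat.cast_nonneg (α := ℝ) k])
    (by
      have : ((J + 1 : ℕ) : ℝ) ≤ (J + k : ℕ) := by exact_mod_cast Nat.add_le_add_left hk1 J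
      nlinarith) le_rfl
  rw [← hj_eq hA1, ← hj_eq hA1] at b8
  have e1 : Real.log ρ = -((J + k : ℕ) * Real.log A) := log_rj A _
  rw [log_rj] at b7
  have e2 : hj g A x (J + k) = Real.log (SS g (cx x) ρ) := rfl
  have e3 : hj g A x J = Real.log (SS g (cx x) (rj A J)) := rfl
  rw [e1] at b6
  push_cast at b6 b8
  have hJ0 := Nat.cast_nonneg (α := ℝ) J
  have hm0 := Nat.cast_nonneg (α := ℝ) m
  have hk0 : (0 : ℝ) < k := by exact_mod_cast hk1
  refine le_trans ?_ (mj_anti hN.diff hN.nz (by omega) x hjJ)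
  rw [mj_eq (by omega) g x J]
  refine arith (H := Real.log (SS g (cx x) (rj A J))) (H' := Real.log (SS g (cx x) ρ))
    (H4 := Real.log (SS g (cx x) (4 * ρ))) hl hN1 hJ0 hm0 hk0 hk l2 ?_ b6 b7 ?_
  · exact b4.trans ((mul_le_mul_of_nonneg_left b5 (by linarith)).trans (le_of_eq (by ring)))
  · rw [← e2, ← e3]
    exact b8

/-- finite covers by small balls bound the weighted sum of Hausdorff measures -/
lemma meas_le (hn : 3 ≤ n) (S : ℕ → Set (Rn n)) (r : ℕ → ℝ) (hr : Tendsto r atTop (𝓝 0)) (B : ℝ)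
    (M : ℕ) (h : ∀ᶠ J : ℕ in atTop, ∃ F : ℕ → Finset (Rn n × ℝ),
      (∀ m, ∀ q ∈ F m, 0 < q.2 ∧ q.2 ≤ r J) ∧
      ∑ m ∈ Finset.range M, ((m : ℝ) + 1) * ∑ q ∈ F m, q.2 ^ (n - 2) ≤ B ∧
      ∀ m < M, ∀ x ∈ S m, ∃ q ∈ F m, ‖x - q.1‖ ≤ q.2) :
    ∑ m ∈ Finset.range M, ((m : ℝ≥0∞) + 1) * μH[(n : ℝ) - 2] (S m) ≤
      ENNReal.ofReal (2 ^ (n - 2) * B) := by
  obtain ⟨F, hF⟩ := h.choice
  have hdiam : ∀ q : Rn n × ℝ, ediam (closedBall q.1 q.2) ≤ ENNReal.ofReal (2 * q.2) :=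
    fun q => ediam_le_of_forall_dist_le fun x hx y hy => by
      linarith [dist_triangle_right x y q.1, mem_closedBall.mp hx, mem_closedBall.mp hy]
  obtain ⟨U, hU⟩ : ∃ U : Ultrafilter ℕ, (U : Filter ℕ) ≤ atTop := ⟨_, Ultrafilter.of_le _⟩
  let a : ℕ → ℕ → ℝ≥0∞ := fun m J =>
    ∑ q : F J m, ediam (closedBall q.1.1 q.1.2) ^ ((n : ℝ) - 2)
  have hlim : ∀ m, ∃ α, Tendsto (a m) U (𝓝 α) := fun m => by
    obtain ⟨α, -, hα⟩ := isCompact_univ.ultrafilter_le_nhds (U.map (a m)) (by simp)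
    exact ⟨α, hα⟩
  choose α hα using hlim
  have h1 : ∀ m < M, μH[(n : ℝ) - 2] (S m) ≤ α m := fun m hm => by
    rw [← (hα m).liminf_eq]
    have k1 : ∀ᶠ J in (U : Filter ℕ), ∀ q : F J m,
        ediam (closedBall q.1.1 q.1.2) ≤ ENNReal.ofReal (2 * r J) :=
      hU (hF.mono fun J hJ => show ∀ q : F J m,
        ediam (closedBall q.1.1 q.1.2) ≤ ENNReal.ofReal (2 * r J) from fun q => (hdiam q.1).trans
          (ENNReal.ofReal_le_ofReal (by linarith [(hJ.1 m q.1 q.2).2])))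
    have k2 : ∀ᶠ J in (U : Filter ℕ), S m ⊆ ⋃ q : F J m, closedBall q.1.1 q.1.2 :=
      hU (hF.mono fun J hJ => show S m ⊆ ⋃ q : F J m, closedBall q.1.1 q.1.2 from fun x hx => by
        obtain ⟨q, hq, h⟩ := hJ.2.2 m hm x hx
        exact mem_iUnion.2 ⟨⟨q, hq⟩, mem_closedBall_iff_norm.2 h⟩)
    have k3 : Tendsto (fun J => ENNReal.ofReal (2 * r J)) U (𝓝 0) := by
      simpa using (ENNReal.tendsto_ofReal (hr.const_mul (2 : ℝ))).mono_left hU
    exact Measure.hausdorffMeasure_le_liminf_sum (ι := fun J => F J m) _ (S m) (l := U)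
      (fun J => ENNReal.ofReal (2 * r J)) k3 (fun J q => closedBall q.1.1 q.1.2) k1 k2
  refine (Finset.sum_le_sum fun m hm => mul_le_mul' le_rfl (h1 m (Finset.mem_range.1 hm))).trans ?_
  refine le_of_tendsto (tendsto_finsetSum (Finset.range M) fun m _ =>
    ENNReal.Tendsto.const_mul (a := (m : ℝ≥0∞) + 1) (hα m) (Or.inr (by simp)))
    ((hF.mono fun J hJ => ?_).filter_mono hU)
  have h2 : ∀ m, a m J ≤ ENNReal.ofReal (2 ^ (n - 2) * ∑ q ∈ F J m, q.2 ^ (n - 2)) := fun m =>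
    calc _ ≤ ∑ q : F J m, ENNReal.ofReal (2 ^ (n - 2) * q.1.2 ^ (n - 2)) :=
          Finset.sum_le_sum fun q _ => by
            have h0 := (hJ.1 m q.1 q.2).1
            rw [show (n : ℝ) - 2 = (n - 2 : ℕ) by rw [Nat.cast_sub (by omega)]; simp,
              ENNReal.rpow_natCast]
            refine (pow_le_pow_left' (hdiam q.1) _).trans (le_of_eq ?_)
            rw [← ENNReal.ofReal_pow (by positivity), mul_pow]
      _ = _ := by
          rw [← ENNReal.ofReal_sum_of_nonneg fun q _ => by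
            have h0 := (hJ.1 m q.1 q.2).1
            positivity, ← Finset.mul_sum,
            Finset.sum_coe_sort (F J m) fun q => q.2 ^ (n - 2)]
  have h3 : ∀ m, 0 ≤ ∑ q ∈ F J m, q.2 ^ (n - 2) := fun m =>
    Finset.sum_nonneg fun q hq => pow_nonneg (hJ.1 m q hq).1.le _
  calc _ ≤ ∑ m ∈ Finset.range M,
        ENNReal.ofReal (2 ^ (n - 2) * (((m : ℝ) + 1) * ∑ q ∈ F J m, q.2 ^ (n - 2))) :=
        Finset.sum_le_sum fun m _ => by
          rw [mul_left_comm, ENNReal.ofReal_mul (by positivity),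
            ENNReal.ofReal_add (by positivity) zero_le_one, ENNReal.ofReal_natCast,
            ENNReal.ofReal_one]
          exact mul_le_mul' le_rfl (h2 m)
    _ ≤ _ := by
        rw [← ENNReal.ofReal_sum_of_nonneg fun m _ => by
          have := h3 m
          positivity, ← Finset.mul_sum]
        exact ENNReal.ofReal_le_ofReal (by gcongr; exact hJ.2.1)

end WLocal

theorem wlocal {n : ℕ} (hn : 3 ≤ n) (h1 : WCoverStmt n) (h2 : TaylorStmt n) : WLocalStmt n := by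
  obtain ⟨A, C, hA, hC, h⟩ := h1
  refine ⟨2 ^ (n - 2) * (7 * C), by positivity, fun w y i L hw hy hL hi => ?_⟩
  have hA' : (16 : ℝ) ≤ A := by exact_mod_cast hA
  have hr : Tendsto (rj A) atTop (𝓝 0) :=
    tendsto_pow_atTop_nhds_zero_of_lt_one (by positivity) (inv_lt_one_of_one_lt₀ (by linarith))
  refine ENNReal.summable.tsum_le_of_sum_range_le fun M => ?_
  refine (WLocal.meas_le hn _ (rj A) hr (C * (L + 3) ^ 2) M
    ((h (L + 3) M).mono fun J hJ => ?_)).trans (ENNReal.ofReal_le_ofReal ?_)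
  · obtain ⟨g, g1, g2⟩ := WLocal.approx h2 hA hw hy hL hi (2 * J) M
    obtain ⟨F, f1, f2, f3⟩ := hJ g g1
    exact ⟨F, f1, f2, fun m hm x hx => f3 m x (by linarith [hx.1]) (g2 x hx.1 m hm hx.2)⟩
  · have : (L + 3) ^ 2 ≤ 7 * L ^ 2 := by nlinarith
    calc _ ≤ 2 ^ (n - 2) * (C * (7 * L ^ 2)) := by gcongr
      _ = _ := by ring

end Pool.Agent.LinN2
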