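import Pool.Agent.Lib.MP_8465a2_an.N2.Main
import Pool.Agent.Lib.MP_8465a2_an.W.Final

/-!
The bound with multiplicities (MP_8465a2_an): assembly.
-/

namespace Pool.Agent.LinN2

/-- the packing theorem without hypotheses -/
theorem bootAll {n : ℕ} (hn : 3 ≤ n) : BootStmt n := by
  have hA := area ibp lap sub
  have hP := poinc ibp polar ptS
  have hW := wind (circ lap) polar car tail ptS
  have hG := ground ptS
  have hL := lshell (lcut polar ptS) hP (tot ibp lap sub polar ptS) (side hA polar) ptS
  have hM := mom hn car tail (graze hn)
  have hT := tshell hn (plane hn) (wave hn) hL hW hG aff ptS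
  have hC := chain hn (flux disc) round hT (arS hn hA) hM (graze hn) ptS
  have hQ := pcell hn (levi hn (ck hn) lap sub) (plane hn) (wave hn) hW hG hP aff hA hM (graze hn)
    ptS lap
  have hO := omegaS hn (master green amin) avg lap (arS hn hA) net ptS
  have hE := expS hn hO hC hQ (phi hn sub) (resc hn net) (hit hn) hM (graze hn) ptS
  exact boot hn (dec hn (heavy hn np) net) hE (resc hn net)

theorem wlocalAll {n : ℕ} (hn : 3 ≤ n) : WLocalStmt n :=
  wlocal hn (wcover hn (str hn sync (span tw) greedy (ck hn)) (ycov hn net) (bootAll hn) np net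
    tree) (taylor hn)

end Pool.Agent.LinN2
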